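import Mathlib
import Pool.Agent.K4H82.DG.Final

/-!
# Optimal stopping for components: the worst maximal `k`-degenerate graphs

The value `L_k` is `1 / (4 k)` for every `k ≥ 1`: the infimum of `m(G) / |G|` over the maximal
`k`-degenerate graphs `G` with at least `N` vertices tends to `1 / (4 k)` as `N → ∞`.
-/

set_option autoImplicit false

namespace Pool.Agent.Results.MP_cfbcde_co.WorstMaxDegenerateValue

open Filter Topology Pool.Agent.K4H82.DG

theorem result (k : ℕ) (hk : 1 ≤ k) :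
    Tendsto (fun N : ℕ => sInf {x : ℝ | ∃ n : ℕ, N ≤ n ∧ ∃ G : SimpleGraph (Fin n),
      IsMaxKDegenerate k G ∧ x = m G / n}) atTop (𝓝 (1 / (4 * (k : ℝ)))) := by
  have hkr : (1 : ℝ) ≤ k := by exact_mod_cast hk
  set F : ℕ → Set ℝ := fun N => {x : ℝ | ∃ n : ℕ, N ≤ n ∧ ∃ G : SimpleGraph (Fin n),
      IsMaxKDegenerate k G ∧ x = m G / n} with hF
  have hbdd : ∀ N, BddBelow (F N) := by
    intro N
    refine ⟨0, ?_⟩
    rintro x ⟨n, _, G, _, rfl⟩
    exact div_nonneg (m_nonneg G) (Nat.cast_nonneg _)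
  -- graphs with small value
  have hup : ∀ (ε : ℝ), 0 < ε → ∀ N, ∃ x ∈ F N, x ≤ 1 / (4 * k) + ε := by
    intro ε hε N
    obtain ⟨M, hM⟩ := exists_nat_gt (6 / ε)
    have hM0 : (0 : ℝ) < M := lt_trans (by positivity) hM
    have hM1 : 1 ≤ M := by
      have : 0 < M := by exact_mod_cast hM0
      omega
    set C : ℝ := 2 + CB k M + 4 * (((3 * mG k (M + 1) : ℕ) : ℝ) + 1) ^ 2 * M * (M + 1) ^ 2
      with hC
    obtain ⟨P, hP⟩ := exists_nat_gt (2 * C / ε)
    set Q := max (max N P) 1 with hQ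
    have hQ1 : 1 ≤ Q := le_max_right _ _
    have h1 := GG_m_le (k := k) (R := M) (M := M) (N := Q) hk hM1 hM1 hQ1
    have hmG : 1 ≤ mG k (M + 1) := le_trans hk (k_le_mG (by omega))
    have hQn : Q ≤ Q * mG k (M + 1) := Nat.le_mul_of_pos_right _ hmG
    set n := Q * mG k (M + 1) with hn
    have hn1 : 1 ≤ n := by omega
    have hn0 : (0 : ℝ) < n := by exact_mod_cast hn1
    refine ⟨m (GG k (M + 1) Q) / n, ⟨n, ?_, GG k (M + 1) Q, GG_max (by omega) hQ1, rfl⟩, ?_⟩
    · exact le_trans (le_trans (le_max_left _ _) (le_max_left _ _)) hQn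
    · rw [div_le_iff₀ hn0]
      refine h1.trans ?_
      rw [← hC]
      have h2 : 1 / (M : ℝ) + 2 / M ≤ ε / 2 := by
        have h3 : 1 / (M : ℝ) + 2 / M = 3 / M := by ring
        rw [h3, div_le_iff₀ hM0]
        rw [div_lt_iff₀ hε] at hM
        linarith
      have h4 : C ≤ n * (ε / 2) := by
        rw [div_lt_iff₀ hε] at hP
        have h5 : (P : ℝ) ≤ n := by
          have : P ≤ n := le_trans (le_trans (le_max_right _ _) (le_max_left _ _)) hQn
          exact_mod_cast this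
        have h6 : (P : ℝ) * ε ≤ n * ε := mul_le_mul_of_nonneg_right h5 hε.le
        linarith
      have h7 : (n : ℝ) * (1 / (4 * k) + 1 / M + 2 / M) ≤ n * (1 / (4 * k) + ε / 2) :=
        mul_le_mul_of_nonneg_left (by linarith) hn0.le
      calc (n : ℝ) * (1 / (4 * k) + 1 / M + 2 / M) + C ≤
          n * (1 / (4 * k) + ε / 2) + n * (ε / 2) := add_le_add h7 h4
        _ = (1 / (4 * k) + ε) * n := by ring
  have hne : ∀ N, (F N).Nonempty := by
    intro N
    obtain ⟨x, hx, _⟩ := hup 1 one_pos N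
    exact ⟨x, hx⟩
  have hupper : ∀ N, sInf (F N) ≤ 1 / (4 * k) := by
    intro N
    apply le_of_forall_pos_le_add
    intro ε hε
    obtain ⟨x, hx, hxle⟩ := hup ε hε N
    exact (csInf_le (hbdd N) hx).trans hxle
  have hlower : ∀ N, 2 * k ≤ N → 1 / (4 * (k : ℝ)) - k / N ≤ sInf (F N) := by
    intro N hN
    apply le_csInf (hne N)
    rintro x ⟨n, hn, G, hG, rfl⟩
    have h1 := m_lower hk hG.1 (le_trans hN hn)
    have hN1 : 1 ≤ N := by omega
    have hN0 : (0 : ℝ) < N := by exact_mod_cast hN1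
    have hNn : (N : ℝ) ≤ n := by exact_mod_cast hn
    have hn1 : (1 : ℝ) ≤ n := by
      have : 1 ≤ n := by omega
      exact_mod_cast this
    have hn0 : (0 : ℝ) < n := by linarith
    rw [le_div_iff₀ hn0]
    refine le_trans ?_ h1
    have h2 : (n : ℝ) / (4 * k) = 1 / (4 * k) * n := by ring
    rw [h2, sub_mul]
    apply sub_le_sub_left
    have h3 : (k : ℝ) / n ≤ k / N := div_le_div_of_nonneg_left (by linarith) hN0 hNn
    have h4 : (k : ℝ) / N ≤ k / N * n := le_mul_of_one_le_right (by positivity) hn1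
    linarith
  have hlim : Tendsto (fun N : ℕ => 1 / (4 * (k : ℝ)) - (k : ℝ) / N) atTop
      (𝓝 (1 / (4 * (k : ℝ)))) := by
    have h1 : Tendsto (fun N : ℕ => (k : ℝ) / N) atTop (𝓝 0) :=
      tendsto_const_div_atTop_nhds_zero_nat (k : ℝ)
    have h2 := h1.const_sub (1 / (4 * (k : ℝ)))
    rwa [sub_zero] at h2
  refine tendsto_of_tendsto_of_tendsto_of_le_of_le' hlim tendsto_const_nhds ?_ ?_
  · exact (eventually_ge_atTop (2 * k)).mono (fun N hN => hlower N hN)
  · exact Eventually.of_forall (fun N => hupper N)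

end Pool.Agent.Results.MP_cfbcde_co.WorstMaxDegenerateValue
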